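import Mathlib
import Pool.Agent.Y346.SG.Full
import Pool.Agent.Y461.SG.CD

set_option autoImplicit false

namespace Pool.Agent.Results.MP_79499b_co.AlmostAllOddDvd

open Filter Topology

/-- Some finite group `G` (not assumed abelian) of order `(n ^ m - 1) / (n - 1)` contains a
difference set `D` with the Singer parameters:
`k = (n ^ (m - 1) - 1) / (n - 1)`, `lambda = (n ^ (m - 2) - 1) / (n - 1)`. -/
def HasSingerDifferenceSet (n m : ℕ) : Prop :=
  ∃ (G : Type) (_ : Group G) (_ : Fintype G) (_ : DecidableEq G) (D : Finset G),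
    Fintype.card G * (n - 1) = n ^ m - 1 ∧ D.card * (n - 1) = n ^ (m - 1) - 1 ∧
    ∀ g : G, g ≠ 1 →
      ((D ×ˢ D).filter (fun p : G × G => p.1 * p.2⁻¹ = g)).card * (n - 1) = n ^ (m - 2) - 1

/-- Let `L ≥ 3` be odd. The number of integers `2 ≤ n ≤ X` which are not prime powers and such that,
for some odd `m ≥ 3` divisible by `L`, some finite group contains a difference set with the Singer
parameters of `(n, m)` is `o(X / log X)`, where in case `L` is a prime only the pairs with
`n ≡ 2 (mod 4)` or with `n ≡ 1 (mod 4)` and `m ≡ 3 (mod 4)` are considered. (The number of prime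
powers up to `X` is asymptotic to `X / log X`, and by Singer's theorem all of them do occur.) -/
theorem result (L : ℕ) (hL : Odd L) (h3 : 3 ≤ L) :
    Tendsto (fun X : ℕ =>
      ({n : ℕ | 2 ≤ n ∧ n ≤ X ∧ ¬ IsPrimePow n ∧
        ∃ m : ℕ, Odd m ∧ 3 ≤ m ∧ L ∣ m ∧
          (¬ L.Prime ∨ n % 4 = 2 ∨ (n % 4 = 1 ∧ m % 4 = 3)) ∧
          HasSingerDifferenceSet n m}.ncard : ℝ) * Real.log X / X)
      atTop (𝓝 0) :=
  Pool.Agent.Y346.SG.singer_full
    (Pool.Agent.Y461.SG.cd Pool.Agent.Y346.SG.ccs_full Pool.Agent.Y346.SG.cf_full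
      Pool.Agent.Y65.SG.g56 Pool.Agent.Y390.SG.PSUM.psum Pool.Agent.W465.PQ.GS.gs
      Pool.Agent.W465.PQ.GS.gd) hL h3

end Pool.Agent.Results.MP_79499b_co.AlmostAllOddDvd
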