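import Mathlib
import Pool.Agent.Y343.SG.Sing

set_option autoImplicit false

namespace Pool.Agent.Results.MP_79499b_co.AlmostAllThreeDvd

open Filter Topology

/-- Some finite group `G` (not assumed abelian) of order `(n ^ m - 1) / (n - 1)` contains a
difference set `D` with the Singer parameters:
`k = (n ^ (m - 1) - 1) / (n - 1)`, `lambda = (n ^ (m - 2) - 1) / (n - 1)`. -/
def HasSingerDifferenceSet (n m : ℕ) : Prop :=
  ∃ (G : Type) (_ : Group G) (_ : Fintype G) (_ : DecidableEq G) (D : Finset G),
    Fintype.card G * (n - 1) = n ^ m - 1 ∧ D.card * (n - 1) = n ^ (m - 1) - 1 ∧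
    ∀ g : G, g ≠ 1 →
      ((D ×ˢ D).filter (fun p : G × G => p.1 * p.2⁻¹ = g)).card * (n - 1) = n ^ (m - 2) - 1

/-- The number of integers `2 ≤ n ≤ X` which are not prime powers and such that, for some odd
`m ≥ 3` divisible by `3` (`m = 3` included), some finite group contains a difference set with the
Singer parameters of `(n, m)`, is `o(X / log X)`. (The number of prime powers up to `X` is
asymptotic to `X / log X`, and by Singer's theorem all of them do occur.) -/
theorem result :
    Tendsto (fun X : ℕ =>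
      ({n : ℕ | 2 ≤ n ∧ n ≤ X ∧ ¬ IsPrimePow n ∧
        ∃ m : ℕ, Odd m ∧ 3 ≤ m ∧ 3 ∣ m ∧ HasSingerDifferenceSet n m}.ncard : ℝ) *
          Real.log X / X)
      atTop (𝓝 0) :=
  Pool.Agent.Y343.SG.singer3

end Pool.Agent.Results.MP_79499b_co.AlmostAllThreeDvd
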